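import Pool.Agent.H500.R2.Stm
import Pool.Agent.H500.KumI
import Pool.Agent.H500.MWA

set_option autoImplicit false
set_option linter.unusedSectionVars false

/-!
# Density of the places at which independent elements are `r`-th powers (helper539, for project R2
of helper500)
-/

namespace Pool.Agent.H539.R2.CB2

open NumberField IsDedekindDomain Filter Topology
open Pool.Agent.W401.Cheb (GK IsFrob dens)
open Pool.Agent.W569.FM (OO GF)
open Pool.Agent.H500.Kum (pow_unique dens_fin fin_mem)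
open Pool.Agent.H500.KumI (AffI KJ exists_KJ card_ge)
open Pool.Agent.H500.R2 (S_CB2)

variable {E : Type} [Field E] [NumberField E] {r : ℕ} [hr : Fact r.Prime] {ι : Type} [Fintype ι]

/-- the analysis at one prime -/
theorem at_frob (D : KJ ι E r) {v : HeightOneSpectrum (𝓞 E)} {σ : GF E} (hσ : IsFrob v σ)
    (hrv : (r : 𝓞 E) ∉ v.asIdeal) (hc : ∀ i, D.c i ∉ v.asIdeal)
    (hdvd : r ∣ Ideal.absNorm v.asIdeal - 1)
    (hp : ∀ i, D.c i ^ ((Ideal.absNorm v.asIdeal - 1) / r) - 1 ∈ v.asIdeal) :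
    D.Phi σ = 1 := by
  obtain ⟨P, hPm, hPv, hP⟩ := hσ
  have hPp := hPm.isPrime
  have hmem : ∀ x : 𝓞 E, algebraMap (𝓞 E) (OO E) x ∈ P ↔ x ∈ v.asIdeal := by
    intro x
    rw [← hPv, Ideal.mem_comap]
  have hrP : (r : OO E) ∉ P := by
    rw [← map_natCast (algebraMap (𝓞 E) (OO E)), hmem]
    exact hrv
  set q := Ideal.absNorm v.asIdeal with hq
  have hq1 : 1 ≤ q := by
    rw [Nat.one_le_iff_ne_zero, hq, Ne, Ideal.absNorm_eq_zero_iff]
    exact v.ne_bot
  have hroot : ∀ s t : ℕ, D.z ^ s - D.z ^ t ∈ P → (s : ZMod r) = t := by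
    intro s t hst
    have e : D.z ^ s = D.z ^ t := by
      refine Pool.Agent.Y115.Chi.root_eq (P := P) (l := r) hrP ?_ ?_ hst hr.out.ne_zero
      · rw [← pow_mul, mul_comm, pow_mul, D.z_pow, one_pow]
      · rw [← pow_mul, mul_comm, pow_mul, D.z_pow, one_pow]
    rw [ZMod.natCast_eq_natCast_iff]
    have e1 : D.z ^ (s : ZMod r).val * 1 = D.z ^ (t : ZMod r).val * 1 := by
      rw [mul_one, mul_one, ZMod.val_natCast, ZMod.val_natCast, ← pow_eq_pow_mod _ D.z_pow,
        ← pow_eq_pow_mod _ D.z_pow]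
      exact e
    have e2 := pow_unique D.hz one_ne_zero e1
    rwa [ZMod.natCast_eq_natCast_iff] at e2
  obtain ⟨m, hm⟩ := hdvd
  have hmr : (q - 1) / r = m := by
    rw [hm, Nat.mul_div_cancel_left _ hr.out.pos]
  rw [hmr] at hp
  have hchi : D.chi σ = 1 := by
    have e := hP D.z
    have e2 : D.z ^ q = D.z ^ 1 := by
      have : q = r * m + 1 := by omega
      rw [this, pow_add, pow_mul, D.z_pow, one_pow, one_mul]
    rw [D.smul_z, e2] at e
    have e3 := hroot _ _ e
    rw [ZMod.natCast_zmod_val, Nat.cast_one] at e3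
    exact e3
  have hkap : ∀ i, D.kap σ i = 0 := by
    intro i
    have e := hP (D.y i)
    have hyP : D.y i ∉ P := by
      intro h
      apply hc i
      rw [← hmem, ← D.hy]
      exact Ideal.pow_mem_of_mem P h r hr.out.pos
    rw [D.smul_y] at e
    have e1 : D.z ^ (D.kap σ i).val * D.y i - D.y i ^ q =
        D.y i * (D.z ^ (D.kap σ i).val - algebraMap (𝓞 E) (OO E) (D.c i) ^ m) := by
      rw [← D.hy, ← pow_mul, ← hm, mul_sub, ← pow_succ', Nat.sub_add_cancel hq1, mul_comm]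
    rw [e1] at e
    have e2 := (hPp.mem_or_mem e).resolve_left hyP
    have e3 : algebraMap (𝓞 E) (OO E) (D.c i) ^ m - 1 ∈ P := by
      have h1 := (hmem _).2 (hp i)
      rwa [map_sub, map_pow, map_one] at h1
    have e4 : D.z ^ (D.kap σ i).val - D.z ^ 0 ∈ P := by
      have h1 := P.add_mem e2 e3
      rwa [sub_add_sub_cancel, ← pow_zero D.z] at h1
    have e5 := hroot _ _ e4
    rw [ZMod.natCast_zmod_val, Nat.cast_zero] at e5
    exact e5
  apply AffI.ext
  · apply Units.ext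
    exact hchi
  · funext i
    exact hkap i

theorem main : S_CB2 := by
  intro E _ _ r s z hrp hz hind P hP ε hε
  classical
  have hr : Fact r.Prime := ⟨hrp⟩
  obtain ⟨D, hD⟩ := exists_KJ (E := E) (r := r) z hz
  have hlim := Pool.Agent.H500.MW.dens_sub (K := E) D.Phi.ker D.isOpen_ker
  have hcard := card_ge D (by rw [hD]; exact hind)
  rw [Fintype.card_fin] at hcard
  -- the exceptional places
  set X : HeightOneSpectrum (𝓞 E) → Prop := fun v => ((r : ℕ) : 𝓞 E) ∈ v.asIdeal ∨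
    ∃ i, z i ∈ v.asIdeal with hX
  have hXfin : {v | X v}.Finite := by
    have h1 : {v | X v} = {v : HeightOneSpectrum (𝓞 E) | ((r : ℕ) : 𝓞 E) ∈ v.asIdeal} ∪
        ⋃ i, {v : HeightOneSpectrum (𝓞 E) | z i ∈ v.asIdeal} := by
      ext v
      simp only [hX, Set.mem_union, Set.mem_iUnion, Set.mem_ofPred_eq]
    rw [h1]
    exact (fin_mem (Nat.cast_ne_zero.2 hrp.ne_zero)).union (Set.finite_iUnion fun i => fin_mem (hz i))
  have hXd := dens_fin X hXfin
  have hsub : ∀ v, P v → (∃ σ ∈ (D.Phi.ker : Set (GF E)), IsFrob v σ) ∨ X v := by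
    intro v hv
    by_cases hXv : X v
    · exact Or.inr hXv
    · left
      rw [hX] at hXv
      push Not at hXv
      obtain ⟨hX1, hX2⟩ := hXv
      obtain ⟨σ, hσ⟩ := Pool.Agent.W401.Frob.exists_frob v
      obtain ⟨h1, h2⟩ := hP v hv
      refine ⟨σ, ?_, hσ⟩
      show D.Phi σ = 1
      refine at_frob D hσ hX1 (fun i => by rw [hD]; exact hX2 i) h1 (fun i => ?_)
      rw [hD]
      exact h2 i (hX2 i)
  have hsum := hlim.add hXd
  rw [add_zero] at hsum
  have hlt : 1 / (D.Phi.ker.index : ℝ) < ε := by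
    refine lt_of_le_of_lt ?_ hε
    have h1 : (0 : ℝ) < (r : ℝ) ^ s := by
      have : (0 : ℝ) < r := by exact_mod_cast hrp.pos
      positivity
    apply one_div_le_one_div_of_le h1
    have h2 : r ^ s ≤ D.Phi.ker.index := hcard
    exact_mod_cast h2
  filter_upwards [hsum.eventually (gt_mem_nhds hlt)] with N hN
  calc dens P N ≤ dens (fun v => (∃ σ ∈ (D.Phi.ker : Set (GF E)), IsFrob v σ) ∨ X v) N :=
        Pool.Agent.W528.Ord.dens_mono hsub N
    _ ≤ _ := Pool.Agent.W528.Ord.dens_or _ _ N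
    _ ≤ ε := hN.le

end Pool.Agent.H539.R2.CB2
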